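import Pool.Agent.K7.H64.IX.Core

/-!
# Differences of primes with indices in given classes modulo `n`

For every `n`, for almost all `c` one of the numbers `h = 2c, 4c, 6c, 8c` is such that for all residues
`s`, `s'` modulo `n` there are many `k` for which `p_{kn+s} + h` is a prime `p_{ln+s'}`. In particular
`p_{kn} + h` is a prime (whose index is again a multiple of `n`) for infinitely many `k`.

From the starting files: the coloured Maynard-Tao theorem with a constant below `4` in short windows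
(`Pool.Agent.TH899.UG.NW.exactW`) and the combinatorial lemma `Pool.Agent.Y863.AA.copy`.
-/

set_option autoImplicit false

open Finset Filter Topology

namespace Pool.Agent.Results.MP_be93de_nt.AlmostAllDifferences

/-- The `m`-th prime: `p 1 = 2`, `p 2 = 3`, `p 3 = 5`, and so on. -/
noncomputable def p (m : ℕ) : ℕ := Nat.nth Nat.Prime (m - 1)

/-- The number of the integers `k ≥ 1` with `y ≤ p_{kn+s} ≤ x` for which `p_{kn+s} + h` is a prime of
the form `p_{ln+s'}`, `l ≥ 1`. -/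
noncomputable def count (n s s' h : ℕ) (y x : ℝ) : ℕ :=
  {k : ℕ | 1 ≤ k ∧ y ≤ p (k * n + s) ∧ (p (k * n + s) : ℝ) ≤ x ∧
    ∃ l : ℕ, 1 ≤ l ∧ p (k * n + s) + h = p (l * n + s')}.ncard

/-- `h` is a difference of primes with indices in any two given classes modulo `n`: for all `s`, `s'`
and all `η > 0` there are arbitrarily large `x` such that `p_{kn+s} + h` is a prime of the form
`p_{ln+s'}` for at least `x ^ (1 - η)` numbers `k` with `p_{kn+s} ≤ x`. -/
def Good (n h : ℕ) : Prop := ∀ s < n, ∀ s' < n, ∀ η : ℝ, 0 < η →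
  ∃ᶠ x : ℕ in atTop, (x : ℝ) ^ (1 - η) ≤ count n s s' h 1 x

/-- `3` if `3 ∣ c`, otherwise `4` -/
def R (c : ℕ) : ℕ := if 3 ∣ c then 3 else 4

open Pool.Agent.K7.H64.IX

theorem p_inj {a b : ℕ} (ha : 1 ≤ a) (hb : 1 ≤ b) (h : p a = p b) : a = b := by
  have := Nat.nth_injective Nat.infinite_setOfPred_prime h
  omega

theorem count_fin (n s s' h : ℕ) (hn : 1 ≤ n) (y x : ℝ) : {k : ℕ | 1 ≤ k ∧ y ≤ p (k * n + s) ∧
    (p (k * n + s) : ℝ) ≤ x ∧ ∃ l : ℕ, 1 ≤ l ∧ p (k * n + s) + h = p (l * n + s')}.Finite := by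
  refine (Set.finite_le_nat ⌊x⌋₊).subset fun k hk => ?_
  obtain ⟨h1, -, h2, -⟩ := hk
  have h3 : p (k * n + s) ≤ ⌊x⌋₊ := Nat.le_floor h2
  have h4 := Nat.add_two_le_nth_prime (k * n + s - 1)
  have h5 : k * 1 ≤ k * n := Nat.mul_le_mul_left k hn
  show k ≤ ⌊x⌋₊
  unfold p at h3
  omega

theorem cnt_le {n s s' h : ℕ} (hn : 1 ≤ n) (hs : s < n) (hs' : s' < n) {y x : ℝ}
    (hy : (Nat.nth Nat.Prime n : ℝ) ≤ y) : cnt n s s' h y x ≤ count n s s' h y x := by
  classical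
  have key : ∀ P : ℕ, P.Prime → ∀ t < n, idx P % n = t → Nat.nth Nat.Prime n ≤ P →
      1 ≤ idx P / n ∧ p (idx P / n * n + t) = P := by
    intro P hP t ht h1 h2
    have h3 : n < idx P := by
      have h4 : Nat.count Nat.Prime (Nat.nth Nat.Prime n) ≤ Nat.count Nat.Prime P := Nat.count_monotone _ h2
      rw [Nat.count_nth_of_infinite Nat.infinite_setOfPred_prime] at h4
      unfold idx
      omega
    refine ⟨(Nat.le_div_iff_mul_le (by omega)).2 (by omega), ?_⟩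
    have h5 : idx P / n * n + t = idx P := by
      rw [← h1, Nat.mul_comm]
      exact Nat.div_add_mod _ _
    rw [h5]
    exact nth_idx hP
  unfold cnt count
  refine Set.ncard_le_ncard_of_injOn (fun P => idx P / n) ?_ ?_ (count_fin n s s' h hn y x)
  · rintro P ⟨h1, h2, h3, h4, h5, h6⟩
    have hP : Nat.nth Nat.Prime n ≤ P := by
      have : (Nat.nth Nat.Prime n : ℝ) ≤ P := hy.trans h5
      exact_mod_cast this
    obtain ⟨k1, k2⟩ := key P h1 s hs (by rw [h3]; exact Nat.mod_eq_of_lt hs) hP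
    obtain ⟨l1, l2⟩ := key (P + h) h2 s' hs' (by rw [h4]; exact Nat.mod_eq_of_lt hs') (by omega)
    refine ⟨k1, ?_, ?_, idx (P + h) / n, l1, ?_⟩
    · rw [k2]; exact h5
    · rw [k2]; exact h6
    · rw [k2, l2]
  · rintro P ⟨h1, -, h3, -, h5, -⟩ P' ⟨h1', -, h3', -, h5', -⟩ heq
    have hP : Nat.nth Nat.Prime n ≤ P := by
      have : (Nat.nth Nat.Prime n : ℝ) ≤ P := hy.trans h5
      exact_mod_cast this
    have hP' : Nat.nth Nat.Prime n ≤ P' := by
      have : (Nat.nth Nat.Prime n : ℝ) ≤ P' := hy.trans h5'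
      exact_mod_cast this
    obtain ⟨-, k2⟩ := key P h1 s hs (by rw [h3]; exact Nat.mod_eq_of_lt hs) hP
    obtain ⟨-, k2'⟩ := key P' h1' s hs (by rw [h3']; exact Nat.mod_eq_of_lt hs) hP'
    have heq' : idx P / n = idx P' / n := heq
    rw [← k2, ← k2', heq']

theorem count_mono {n s s' h : ℕ} (hn : 1 ≤ n) {y y' x : ℝ} (hy : y' ≤ y) :
    count n s s' h y x ≤ count n s s' h y' x := by
  unfold count
  refine Set.ncard_le_ncard ?_ (count_fin n s s' h hn y' x)
  rintro k ⟨h1, h2, h3⟩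
  exact ⟨h1, hy.trans h2, h3⟩

theorem not_good {n h : ℕ} (hg : ¬ Good n h) : ∃ s < n, ∃ s' < n, ∀ᶠ η in 𝓝[>] (0 : ℝ),
    ∀ᶠ x : ℕ in atTop, (count n s s' h 1 x : ℝ) < (x : ℝ) ^ (1 - η) := by
  unfold Good at hg
  push Not at hg
  obtain ⟨s, hs, s', hs', η, hη, h1⟩ := hg
  refine ⟨s, hs, s', hs', ?_⟩
  filter_upwards [Ioc_mem_nhdsGT hη] with η' hη'
  filter_upwards [h1, eventually_ge_atTop 1] with x hx hx1
  have hx1' : (1 : ℝ) ≤ x := by exact_mod_cast hx1
  exact lt_of_lt_of_le hx (Real.rpow_le_rpow_of_exponent_le hx1' (by linarith [hη'.2]))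

open Classical in
/-- **Almost all differences, for primes with indices in all classes modulo `n`.** For all `n ≥ 1` and
`ε > 0` there are `L` and `C` such that:
(1) for `0 < η ≤ 1`, all large `x` and all intervals `(u, u + H]` with `H ≥ L` and `C (u + H) ≤ x`: for
all but at most `ε H` of the integers `c` with `u < c ≤ u + H` there is `j ≤ R(c)` such that for all
residues `s`, `s'` modulo `n` there are at least `x ^ (1 - η)` numbers `k` with
`x / C ≤ p_{kn+s} ≤ x` for which `p_{kn+s} + 2jc` is a prime of the form `p_{ln+s'}`;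
(2) for all intervals `(u, u + H]` with `H ≥ L`: for all but at most `ε H` of the integers `c` with
`u < c ≤ u + H` one of the numbers `2jc`, `j ≤ R(c)`, is `Good` for `n`. -/
theorem result (n : ℕ) (hn : 1 ≤ n) (ε : ℝ) (hε : 0 < ε) : ∃ L C : ℕ, 1 ≤ C ∧
    (∀ η : ℝ, 0 < η → η ≤ 1 → ∀ᶠ x : ℕ in atTop, ∀ u H : ℕ, L ≤ H → C * (u + H) ≤ x →
      (((Ioc u (u + H)).filter (fun c : ℕ => ∀ j : ℕ, 1 ≤ j → j ≤ R c → ∃ s < n, ∃ s' < n,
        (count n s s' (2 * j * c) ((x : ℝ) / C) x : ℝ) < (x : ℝ) ^ (1 - η))).card : ℝ) ≤ ε * H) ∧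
    ∀ u H : ℕ, L ≤ H → (((Ioc u (u + H)).filter (fun c : ℕ =>
      ∀ j : ℕ, 1 ≤ j → j ≤ R c → ¬ Good n (2 * j * c))).card : ℝ) ≤ ε * H := by
  obtain ⟨L, C, hC, hcore⟩ := core n hn ε hε
  have hCr : (1 : ℝ) ≤ C := by exact_mod_cast hC
  have hpart : ∀ η : ℝ, 0 < η → η ≤ 1 → ∀ᶠ x : ℕ in atTop, ∀ u H : ℕ, L ≤ H → C * (u + H) ≤ x →
      (((Ioc u (u + H)).filter (fun c : ℕ => ∀ j : ℕ, 1 ≤ j → j ≤ R c → ∃ s < n, ∃ s' < n,
        (count n s s' (2 * j * c) ((x : ℝ) / C) x : ℝ) < (x : ℝ) ^ (1 - η))).card : ℝ) ≤ ε * H := by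
    intro η hη hη1
    filter_upwards [hcore η hη hη1, eventually_ge_atTop (C * Nat.nth Nat.Prime n)] with x hx hx2
      u H hH hCX
    refine le_trans ?_ (hx u H hH hCX)
    rw [Nat.cast_le]
    apply card_le_card
    intro c hc
    simp only [mem_filter] at hc ⊢
    refine ⟨hc.1, fun j hj1 hj2 => ?_⟩
    obtain ⟨s, hs, s', hs', h1⟩ := hc.2 j hj1 hj2
    refine ⟨⟨s, hs⟩, ⟨s', hs'⟩, lt_of_le_of_lt ?_ h1⟩
    rw [Nat.cast_le]
    apply cnt_le hn hs hs'
    rw [le_div_iff₀ (by linarith)]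
    have : ((C * Nat.nth Nat.Prime n : ℕ) : ℝ) ≤ x := by exact_mod_cast hx2
    push_cast at this
    linarith
  refine ⟨L, C, hC, hpart, fun u H hH => ?_⟩
  have h1 : ∀ᶠ η in 𝓝[>] (0 : ℝ), ∀ c ∈ Ioc u (u + H), ∀ j ∈ Icc 1 4, ¬ Good n (2 * j * c) →
      ∃ s < n, ∃ s' < n, ∀ᶠ x : ℕ in atTop, (count n s s' (2 * j * c) 1 x : ℝ) < (x : ℝ) ^ (1 - η) := by
    rw [Filter.eventually_all_finset]
    intro c _
    rw [Filter.eventually_all_finset]
    intro j _
    by_cases hg : Good n (2 * j * c)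
    · exact Eventually.of_forall fun η hn => absurd hg hn
    · obtain ⟨s, hs, s', hs', h2⟩ := not_good hg
      filter_upwards [h2] with η hη _
      exact ⟨s, hs, s', hs', hη⟩
  obtain ⟨η, h2, hη0, hη1⟩ := (h1.and (Ioc_mem_nhdsGT (zero_lt_one' ℝ))).exists
  have h3 : ∀ᶠ x : ℕ in atTop, ∀ c ∈ Ioc u (u + H), ∀ j ∈ Icc 1 4, ¬ Good n (2 * j * c) →
      ∃ s < n, ∃ s' < n, (count n s s' (2 * j * c) 1 x : ℝ) < (x : ℝ) ^ (1 - η) := by
    rw [Filter.eventually_all_finset]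
    intro c hc
    rw [Filter.eventually_all_finset]
    intro j hj
    by_cases hg : Good n (2 * j * c)
    · exact Eventually.of_forall fun x hn => absurd hg hn
    · obtain ⟨s, hs, s', hs', h4⟩ := h2 c hc j hj hg
      filter_upwards [h4] with x hx _
      exact ⟨s, hs, s', hs', hx⟩
  obtain ⟨x, hx1, hx2, hx3⟩ :=
    (h3.and ((hpart η hη0 hη1).and (eventually_ge_atTop (C * (u + H) + C)))).exists
  refine le_trans ?_ (hx2 u H hH (by omega))
  rw [Nat.cast_le]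
  apply card_le_card
  intro c hc
  simp only [mem_filter] at hc ⊢
  refine ⟨hc.1, fun j hj1 hj2 => ?_⟩
  have hj4 : j ≤ 4 := by
    have : R c ≤ 4 := by unfold R; split_ifs <;> omega
    omega
  obtain ⟨s, hs, s', hs', h4⟩ := hx1 c hc.1 j (mem_Icc.2 ⟨hj1, hj4⟩) (hc.2 j hj1 hj2)
  refine ⟨s, hs, s', hs', lt_of_le_of_lt ?_ h4⟩
  rw [Nat.cast_le]
  apply count_mono hn
  rw [le_div_iff₀ (by linarith), one_mul]
  exact_mod_cast (by omega : C ≤ x)

end Pool.Agent.Results.MP_be93de_nt.AlmostAllDifferences
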