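import Pool.Agent.TH882.X4

/-!
For every `n` and `r` there are many multiples `kn` of `n` for which the `r + 1` consecutive primes
`p_{kn}, …, p_{kn+r}` lie in a bounded interval and all the numbers `p_{kn+i} + 2` are almost prime.
-/

set_option autoImplicit false

open Finset Filter Topology

namespace Pool.Agent.Results.MP_be93de_nt.BoundedRunsAtMultiples

/-- The `m`-th prime: `p 1 = 2`, `p 2 = 3`, `p 3 = 5`, and so on. -/
noncomputable def p (m : ℕ) : ℕ := Nat.nth Nat.Prime (m - 1)

/-- The integers `k ≥ 1` with `p_{kn+s+r} ≤ x` such that the `r + 1` consecutive primes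
`p_{kn+s}, p_{kn+s+1}, …, p_{kn+s+r}` lie in an interval of length `C` and all the numbers
`p_{kn+s+i} + 2`, `0 ≤ i ≤ r`, have at most `R` prime factors, counted with multiplicity. -/
def good (n s r R C x : ℕ) : Set ℕ :=
  {k : ℕ | 1 ≤ k ∧ p (k * n + s + r) ≤ x ∧ p (k * n + s + r) ≤ p (k * n + s) + C ∧
    ∀ i ≤ r, ArithmeticFunction.cardFactors (p (k * n + s + i) + 2) ≤ R}

open Pool.Agent.TH882.HX
open Pool.Agent.TH882.AG (AP)

/-- the indices in a run which are `≡ s` modulo `k` -/
lemma run_index2 (S : Finset ℤ) (k s r R C n : ℕ) (hk : 1 ≤ k) (hs : s < k) (hC : k ≤ Nat.count Nat.Prime (n + 1))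
    (h : Run S (k + r) R C n) :
    ∃ j : ℕ, 1 ≤ j ∧ ∀ i ≤ r, n < Nat.nth Nat.Prime (j * k + s + i - 1) ∧
      Nat.nth Nat.Prime (j * k + s + i - 1) ≤ n + C ∧
      AP S R (Nat.nth Nat.Prime (j * k + s + i - 1)) := by
  classical
  obtain ⟨h1, h2⟩ := h
  have h3 := count_run n C
  set c := Nat.count Nat.Prime (n + 1) with hc
  -- the least index `m ≥ c + 1` with `m ≡ s` mod `k`
  set j := (c - s) / k + 1 with hj
  have e0 : s ≤ c := hs.le.trans hC
  have e3 : j * k = (c - s) / k * k + k := by rw [hj]; ring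
  have e1 : (c - s) / k * k ≤ c - s := Nat.div_mul_le_self (c - s) k
  have e2 : c - s < j * k := by
    have e5 := Nat.div_add_mod (c - s) k
    have e4 := Nat.mod_lt (c - s) hk
    rw [e3, mul_comm ((c - s) / k) k]
    omega
  refine ⟨j, Nat.succ_pos _, ?_⟩
  intro i hi
  have e4 : c ≤ j * k + s + i - 1 := by omega
  have e5 : j * k + s + i - 1 < Nat.count Nat.Prime (n + 1 + C) := by
    rw [← h3]
    have : j * k + s + i ≤ c + (k + r) := by omega
    omega
  obtain ⟨w, hw, hnw⟩ := nth_between n C (j * k + s + i - 1) e4 e5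
  have hp : (n + w).Prime := by
    rw [← hnw]
    exact Nat.prime_nth_prime _
  have hw' := mem_Icc.1 hw
  refine ⟨by omega, by omega, ?_⟩
  rw [hnw]
  exact h2 w hw hp

/-- many indices in a class modulo `k` at bounded clusters -/
theorem indices2 (S : Finset ℤ) (hS : Adm S) (k s r : ℕ) (hk : 1 ≤ k) (hs : s < k) :
    ∃ R C D : ℕ, ∃ x₀ : ℕ,
    ∀ x : ℕ, x₀ ≤ x → (x : ℝ) / Real.log x ^ D ≤
      (({j : ℕ | 1 ≤ j ∧ Nat.nth Nat.Prime (j * k + s + r - 1) ≤ x ∧
        Nat.nth Nat.Prime (j * k + s + r - 1) ≤ Nat.nth Nat.Prime (j * k + s - 1) + C ∧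
        ∀ i ≤ r, AP S R (Nat.nth Nat.Prime (j * k + s + i - 1))}.ncard : ℕ) : ℝ) := by
  classical
  obtain ⟨R, C, D, X0, h⟩ := runs S hS (k + r) (by omega)
  have hlogt : Tendsto (fun X : ℕ => Real.log (X : ℝ)) atTop atTop :=
    Real.tendsto_log_atTop.comp tendsto_natCast_atTop_atTop
  obtain ⟨X5, h5⟩ := eventually_atTop.1 (hlogt.eventually_ge_atTop (4 * (C + 1)))
  refine ⟨R, C, D + 1, 3 * (X0 + X5 + C + 3 + Nat.nth Nat.Prime k), ?_⟩
  intro x hx
  set X : ℕ := x / 3 with hX
  have hXx : 3 * X ≤ x := by omega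
  have hXx2 : x < 3 * X + 3 := by omega
  have hXX : X0 + X5 + C + 3 + Nat.nth Nat.Prime k ≤ X := by omega
  obtain ⟨A, hA1, hA2, hA3⟩ := h X (by omega)
  set J := {j : ℕ | 1 ≤ j ∧ Nat.nth Nat.Prime (j * k + s + r - 1) ≤ x ∧
        Nat.nth Nat.Prime (j * k + s + r - 1) ≤ Nat.nth Nat.Prime (j * k + s - 1) + C ∧
        ∀ i ≤ r, AP S R (Nat.nth Nat.Prime (j * k + s + i - 1))} with hJ
  have hJfin : J.Finite := by
    apply (finite_toSet (range (x + 1))).subset
    rintro j ⟨h1, h2, -⟩
    rw [mem_coe, mem_range]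
    have e1 := Nat.add_two_le_nth_prime (j * k + s + r - 1)
    have e2 : j * 1 ≤ j * k := Nat.mul_le_mul_left j hk
    omega
  have hcount : ∀ n ∈ A, k ≤ Nat.count Nat.Prime (n + 1) := by
    intro n hn
    have e3 := mem_Ico.1 (hA1 hn)
    have e4 : Nat.nth Nat.Prime k + 1 ≤ n + 1 := by omega
    have e5 := Nat.count_monotone Nat.Prime e4
    rw [Nat.count_nth_succ_of_infinite Nat.infinite_setOfPred_prime] at e5
    omega
  choose! f hf using fun (n : ℕ) (hn : n ∈ A) =>
    run_index2 S k s r R C n hk hs (hcount n hn) (hA2 n hn)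
  have hmaps : ∀ n ∈ A, f n ∈ hJfin.toFinset := by
    intro n hn
    rw [Set.Finite.mem_toFinset]
    obtain ⟨e1, e2⟩ := hf n hn
    have e3 := mem_Ico.1 (hA1 hn)
    refine ⟨e1, ?_, ?_, fun i hi => (e2 i hi).2.2⟩
    · have := (e2 r le_rfl).2.1
      omega
    · have e6 := (e2 r le_rfl).2.1
      have e7 := (e2 0 (Nat.zero_le _)).1
      rw [add_zero] at e7
      omega
  have hfib : ∀ j ∈ hJfin.toFinset, (A.filter (fun n => f n = j)).card ≤ C := by
    intro j _
    set q := Nat.nth Nat.Prime (j * k + s + 0 - 1) with hq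
    have hsub : A.filter (fun n => f n = j) ⊆ Ico (q - C) q := by
      intro n hn
      rw [mem_filter] at hn
      obtain ⟨hn1, hn2⟩ := hn
      have e2 := (hf n hn1).2 0 (Nat.zero_le _)
      rw [hn2] at e2
      rw [mem_Ico]
      omega
    refine (card_le_card hsub).trans ?_
    rw [Nat.card_Ico]
    omega
  have hcard : A.card ≤ C * hJfin.toFinset.card :=
    card_le_mul_card_image_of_maps_to hmaps C hfib
  have hJc : J.ncard = hJfin.toFinset.card := Set.ncard_eq_toFinset_card _ hJfin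
  rw [hJc]
  have hX0 : (0 : ℝ) < X := by
    have : 0 < X := by omega
    exact_mod_cast this
  have hx0 : (0 : ℝ) < x := by
    have : 0 < x := by omega
    exact_mod_cast this
  have hC0 : (0 : ℝ) < C + 1 := by positivity
  have hlx : 4 * ((C : ℝ) + 1) ≤ Real.log x := h5 x (by omega)
  have hlX : 4 * ((C : ℝ) + 1) ≤ Real.log X := h5 X (by omega)
  have hlx0 : 0 < Real.log x := by linarith
  have hlX0 : 0 < Real.log X := by linarith
  have hll : Real.log X ≤ Real.log x := Real.log_le_log hX0 (by exact_mod_cast (by omega : X ≤ x))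
  have hx4 : (x : ℝ) ≤ 4 * X := by
    have : x ≤ 4 * X := by omega
    exact_mod_cast this
  have h6 : (A.card : ℝ) ≤ (C + 1) * (hJfin.toFinset.card : ℝ) := by
    have : (A.card : ℝ) ≤ C * (hJfin.toFinset.card : ℝ) := by exact_mod_cast hcard
    have h0 : (0 : ℝ) ≤ (hJfin.toFinset.card : ℝ) := Nat.cast_nonneg _
    nlinarith
  have h7 : (x : ℝ) / Real.log x ^ (D + 1) ≤ X / Real.log X ^ D / (C + 1) := by
    rw [div_div, div_le_div_iff₀ (by positivity) (by positivity)]
    calc (x : ℝ) * (Real.log X ^ D * (C + 1)) ≤ (4 * X) * (Real.log x ^ D * (C + 1)) := by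
          apply mul_le_mul hx4 _ (by positivity) (by positivity)
          apply mul_le_mul_of_nonneg_right _ hC0.le
          exact pow_le_pow_left₀ hlX0.le hll D
      _ = X * (Real.log x ^ D * (4 * (C + 1))) := by ring
      _ ≤ X * (Real.log x ^ D * Real.log x) := by
          apply mul_le_mul_of_nonneg_left _ hX0.le
          exact mul_le_mul_of_nonneg_left hlx (by positivity)
      _ = X * Real.log x ^ (D + 1) := by rw [pow_succ]
  refine h7.trans ?_
  rw [div_le_iff₀ hC0]
  linarith

/-- **Bounded runs of almost twin primes with indices in a class modulo `n`.** Let `n ≥ 1`,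
`0 ≤ s < n` and `r ≥ 0`. There are `R`, `C` and `D` such that for all large `x` there are at least
`x / (log x) ^ D` integers `k ≥ 1` with `p_{kn+s+r} ≤ x` for which the `r + 1` consecutive primes
`p_{kn+s}, p_{kn+s+1}, …, p_{kn+s+r}` lie in an interval of length at most `C` and each of the numbers
`p_{kn+s} + 2, p_{kn+s+1} + 2, …, p_{kn+s+r} + 2` has at most `R` prime factors. -/
theorem result (n s r : ℕ) (hn : 1 ≤ n) (hs : s < n) : ∃ R C D : ℕ, ∀ᶠ x : ℕ in atTop,
    (x : ℝ) / Real.log x ^ D ≤ ((good n s r R C x).ncard : ℝ) := by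
  obtain ⟨R, C, D, x₀, h⟩ := indices2 {2} (by
    intro l hl
    by_cases h3 : l = 2 ∨ l = 3
    · refine ⟨-1, ?_, ?_⟩
      · rcases h3 with rfl | rfl <;> norm_num
      · intro a ha
        rw [Finset.mem_singleton] at ha
        subst ha
        rcases h3 with rfl | rfl <;> norm_num
    · push Not at h3
      have h5 : 4 ≤ l := by
        have := hl.two_le
        omega
      refine ⟨1, ?_, ?_⟩
      · intro hd
        have := Int.le_of_dvd one_pos hd
        omega
      · intro a ha hd
        rw [Finset.mem_singleton] at ha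
        subst ha
        have := Int.le_of_dvd (by norm_num) hd
        omega) n s r hn hs
  refine ⟨R, C, D, ?_⟩
  filter_upwards [eventually_ge_atTop x₀] with x hx
  refine (h x hx).trans ?_
  apply Nat.cast_le.2
  apply Set.ncard_le_ncard
  · rintro k ⟨h1, h2, h3, h4⟩
    refine ⟨h1, h2, h3, ?_⟩
    intro i hi
    have e1 := (h4 i hi 2 (Finset.mem_singleton_self _)).2
    have e2 : ((Nat.nth Nat.Prime (k * n + s + i - 1) : ℤ) + 2).toNat =
        Nat.nth Nat.Prime (k * n + s + i - 1) + 2 := by omega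
    rw [e2] at e1
    exact e1
  · apply (Finset.finite_toSet (Finset.range (x + 1))).subset
    rintro j ⟨h1, h2, -, -⟩
    rw [Finset.mem_coe, Finset.mem_range]
    unfold p at h2
    have e1 := Nat.add_two_le_nth_prime (j * n + s + r - 1)
    have e2 : j * 1 ≤ j * n := Nat.mul_le_mul_left j hn
    omega

end Pool.Agent.Results.MP_be93de_nt.BoundedRunsAtMultiples
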