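import Pool.Agent.K7.H64.IX.Pat

/-!
# Every finite pattern, up to a bounded error, of primes with indices in given classes modulo `n`

For all `n` and `k` there is `C` such that every pattern `v` of `k` integers can be changed by at most `C`
in each coordinate into a pattern `a` of distinct nonzero integers for which there are many `K` such that all
the numbers `p_{Kn+s₀} + a i` are primes of the form `p_{ln+s i}`. In particular all the `p_{Kn} + a i` are
primes whose indices are multiples of `n`.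

From the starting files: the coloured Maynard-Tao theorem (`Pool.Agent.TH899.UG.NW.exactW`, with all other
integers close to the primes composite), and the passage from such theorems to patterns
(`Pool.Agent.H732R3.AbsIP.syndetic`, by the density Hales-Jewett theorem).
-/

set_option autoImplicit false

open Finset Filter Topology

namespace Pool.Agent.Results.MP_be93de_nt.PatternsInClasses

/-- The `m`-th prime: `p 1 = 2`, `p 2 = 3`, `p 3 = 5`, and so on. -/
noncomputable def p (m : ℕ) : ℕ := Nat.nth Nat.Prime (m - 1)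

open Pool.Agent.K7.H64.IX Pool.Agent.H732R3.BigQ

theorem key {n : ℕ} (hn : 1 ≤ n) : ∀ P : ℕ, P.Prime → ∀ t < n, idx P % n = t →
    Nat.nth Nat.Prime n ≤ P → 1 ≤ idx P / n ∧ p (idx P / n * n + t) = P := by
  intro P hP t ht h1 h2
  have h3 : n < idx P := by
    have h4 : Nat.count Nat.Prime (Nat.nth Nat.Prime n) ≤ Nat.count Nat.Prime P := Nat.count_monotone _ h2
    rw [Nat.count_nth_of_infinite Nat.infinite_setOfPred_prime] at h4
    unfold idx
    omega
  refine ⟨(Nat.le_div_iff_mul_le (by omega)).2 (by omega), ?_⟩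
  have h5 : idx P / n * n + t = idx P := by
    rw [← h1, Nat.mul_comm]
    exact Nat.div_add_mod _ _
  rw [h5]
  exact nth_idx hP

theorem fin_set (n s₀ x : ℕ) (hn : 1 ≤ n) : {K : ℕ | 1 ≤ K ∧ p (K * n + s₀) ≤ x}.Finite := by
  refine (Set.finite_le_nat x).subset fun K hK => ?_
  obtain ⟨h1, h2⟩ := hK
  have h4 := Nat.add_two_le_nth_prime (K * n + s₀ - 1)
  have h5 : K * 1 ≤ K * n := Nat.mul_le_mul_left K hn
  show K ≤ x
  unfold p at h2
  omega

/-- **Patterns of primes with indices in given classes modulo `n`, up to a bounded error.** For all `n ≥ 1`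
and `k` there is `C` such that for all integers `v 1, ..., v k` and all residues `s₀, s 1, ..., s k` modulo
`n` there are distinct nonzero integers `a 1, ..., a k` with `|a i - v i| ≤ C` such that for all `η > 0`
there are arbitrarily large `x` for which at least `x ^ (1 - η)` numbers `K ≥ 1` with `p_{Kn+s₀} ≤ x` have
the property that for every `i` the number `p_{Kn+s₀} + a i` is a prime of the form `p_{ln+s i}`, `l ≥ 1`. -/
theorem result (n k : ℕ) (hn : 1 ≤ n) : ∃ C : ℕ, ∀ (v : Fin k → ℤ) (s₀ : ℕ) (s : Fin k → ℕ),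
    s₀ < n → (∀ i, s i < n) → ∃ a : Fin k → ℤ, (∀ i, |a i - v i| ≤ C) ∧ Function.Injective a ∧
      (∀ i, a i ≠ 0) ∧ ∀ η : ℝ, 0 < η → ∃ᶠ x : ℕ in atTop, (x : ℝ) ^ (1 - η) ≤
        ({K : ℕ | 1 ≤ K ∧ p (K * n + s₀) ≤ x ∧
          ∀ i, ∃ l : ℕ, 1 ≤ l ∧ (p (l * n + s i) : ℤ) = p (K * n + s₀) + a i}.ncard : ℝ) := by
  classical
  obtain ⟨C, hC⟩ := exact_good (n * (k + 1)) k (Nat.mul_pos hn (Nat.succ_pos k))
  refine ⟨C, fun v s₀ s hs₀ hs => ?_⟩
  obtain ⟨a, ha, hbig⟩ := hC v s₀ (fun i => s i + n * ((i : ℕ) + 1))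
  have hm0 : s₀ % (n * (k + 1)) = s₀ := Nat.mod_eq_of_lt (by nlinarith)
  have hmi : ∀ i : Fin k, (s i + n * ((i : ℕ) + 1)) % (n * (k + 1)) = s i + n * ((i : ℕ) + 1) := fun i => by
    apply Nat.mod_eq_of_lt
    have h1 := hs i
    have h2 : n * ((i : ℕ) + 1 + 1) ≤ n * (k + 1) := Nat.mul_le_mul_left n (by have := i.2; omega)
    have h3 : n * ((i : ℕ) + 1 + 1) = n * ((i : ℕ) + 1) + n := by ring
    omega
  have hmod : ∀ z t : ℕ, z % (n * (k + 1)) = t → z % n = t % n := fun z t h => by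
    rw [← h, Nat.mod_mul_right_mod]
  obtain ⟨P₀, hP₀⟩ := hbig.infinite.nonempty
  refine ⟨a, ha, ?_, ?_, ?_⟩
  · intro i j hij
    obtain ⟨Pi, h1, h2, h3⟩ := hP₀.2.2 i
    obtain ⟨Pj, h4, h5, h6⟩ := hP₀.2.2 j
    have h7 : Pi = Pj := by
      have : (Pi : ℤ) = Pj := by rw [h3, h6, hij]
      exact_mod_cast this
    rw [h7, h5, hmi, hmi] at h2
    have h8 := hs i
    have h9 := hs j
    by_contra hne
    rcases lt_or_gt_of_ne (fun h : (i : ℕ) = j => hne (Fin.ext h)) with h | h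
    · have : n * ((i : ℕ) + 1 + 1) ≤ n * ((j : ℕ) + 1) := Nat.mul_le_mul_left n (by omega)
      have h3 : n * ((i : ℕ) + 1 + 1) = n * ((i : ℕ) + 1) + n := by ring
      omega
    · have : n * ((j : ℕ) + 1 + 1) ≤ n * ((i : ℕ) + 1) := Nat.mul_le_mul_left n (by omega)
      have h3 : n * ((j : ℕ) + 1 + 1) = n * ((j : ℕ) + 1) + n := by ring
      omega
  · intro i h0
    obtain ⟨Pi, h1, h2, h3⟩ := hP₀.2.2 i
    have h7 : Pi = P₀ := by
      have : (Pi : ℤ) = P₀ := by rw [h3, h0, add_zero]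
      exact_mod_cast this
    have h4 := hP₀.2.1
    rw [h7, h4, hm0] at h2
    have h5 := hmi i
    rw [h5] at h2
    have : n * 1 ≤ n * ((i : ℕ) + 1) := Nat.mul_le_mul_left n (by omega)
    omega
  · -- drop the finitely many small primes
    set G : Set ℕ := {P : ℕ | P.Prime ∧ idx P % n = s₀ ∧ Nat.nth Nat.Prime n ≤ P ∧
      ∀ i, ∃ P' : ℕ, P'.Prime ∧ idx P' % n = s i ∧ Nat.nth Nat.Prime n ≤ P' ∧ (P' : ℤ) = P + a i} with hG
    obtain ⟨B, hB⟩ : ∃ B : ℕ, ∀ i, |a i| ≤ B := by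
      refine ⟨∑ i, (a i).natAbs, fun i => ?_⟩
      have h1 : (a i).natAbs ≤ ∑ i, (a i).natAbs :=
        single_le_sum (f := fun i => (a i).natAbs) (fun _ _ => Nat.zero_le _) (mem_univ i)
      rw [Int.abs_eq_natAbs]
      exact_mod_cast h1
    obtain ⟨o, ho⟩ := big_pigeon hbig (fun o : Bool => if o then G else
      {P : ℕ | P < Nat.nth Nat.Prime n + B}) (by
      rintro P ⟨h1, h2, h3⟩
      rw [Set.mem_iUnion]
      by_cases hP : P < Nat.nth Nat.Prime n + B
      · exact ⟨false, by simpa using hP⟩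
      · refine ⟨true, ?_⟩
        rw [if_pos rfl]
        refine ⟨h1, ?_, by omega, fun i => ?_⟩
        · rw [hmod _ _ h2, hm0, Nat.mod_eq_of_lt hs₀]
        · obtain ⟨P', h4, h5, h6⟩ := h3 i
          refine ⟨P', h4, ?_, ?_, h6⟩
          · rw [hmod _ _ h5, hmi, Nat.add_mul_mod_self_left, Nat.mod_eq_of_lt (hs i)]
          · have h7 := abs_le.1 (hB i)
            omega)
    have hGbig : Big G := by
      cases o with
      | true => simpa using ho
      | false =>
        exfalso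
        rw [if_neg (by simp)] at ho
        exact ho.infinite (Set.finite_lt_nat _)
    intro η hη
    rw [Filter.frequently_atTop]
    intro X
    obtain ⟨η', hη'0, hη'1, hη'η⟩ : ∃ η' : ℝ, 0 < η' ∧ η' ≤ 1 ∧ η' ≤ η :=
      ⟨min η 1, lt_min hη one_pos, min_le_right _ _, min_le_left _ _⟩
    obtain ⟨x, hx1, hx2, hx3⟩ := ((hGbig η' hη'0).and_eventually
      ((eventually_ge_atTop ((X : ℝ) + 1)).and (eventually_ge_atTop (1 : ℝ)))).exists
    have hx0 : 0 < x := by linarith
    have hfl1 : 1 ≤ ⌊x⌋₊ := Nat.le_floor (by simpa using hx3)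
    refine ⟨⌊x⌋₊, Nat.le_floor (by linarith), ?_⟩
    have h1 : ((⌊x⌋₊ : ℕ) : ℝ) ^ (1 - η) ≤ x ^ (1 - η') :=
      (Real.rpow_le_rpow_of_exponent_le (by exact_mod_cast hfl1) (by linarith)).trans
        (Real.rpow_le_rpow (by positivity) (Nat.floor_le hx0.le) (by linarith))
    refine (h1.trans hx1).trans ?_
    rw [Nat.cast_le]
    refine Set.ncard_le_ncard_of_injOn (fun P => idx P / n) ?_ ?_
      ((fin_set n s₀ ⌊x⌋₊ hn).subset (fun K hK => ⟨hK.1, hK.2.1⟩))
    · rintro P ⟨⟨h2, h3, h4, h5⟩, h6⟩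
      obtain ⟨k1, k2⟩ := key hn P h2 s₀ hs₀ h3 h4
      refine ⟨k1, ?_, fun i => ?_⟩
      · rw [k2]; exact Nat.le_floor h6
      · obtain ⟨P', g1, g2, g3, g4⟩ := h5 i
        obtain ⟨l1, l2⟩ := key hn P' g1 (s i) (hs i) g2 g3
        exact ⟨idx P' / n, l1, by rw [k2, l2, g4]⟩
    · rintro P ⟨⟨h2, h3, h4, -⟩, -⟩ P' ⟨⟨h2', h3', h4', -⟩, -⟩ heq
      obtain ⟨-, k2⟩ := key hn P h2 s₀ hs₀ h3 h4
      obtain ⟨-, k2'⟩ := key hn P' h2' s₀ hs₀ h3' h4'
      have heq' : idx P / n = idx P' / n := heq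
      rw [← k2, ← k2', heq']

end Pool.Agent.Results.MP_be93de_nt.PatternsInClasses
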