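import Pool.Agent.K7.H64.IX.ThirdM

/-!
# A third of the multiples of every even number are differences of primes with indices in all classes

For every `n` and every `b`, for at least a third of the `m` the number `h = 2bm` is such that for all
residues `s`, `s'` modulo `n` there are many `k` for which `p_{kn+s} + h` is a prime `p_{ln+s'}`.

From the starting files: the coloured Maynard-Tao theorem with a constant below `4` in short windows
(`Pool.Agent.TH899.UG.NW.exactW`), the quadruples with all differences in a set of more than two thirds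
of `{1, ..., H}` (`Pool.Agent.TH899.UG.TD.quad`), and the multidimensional Szemeredi theorem in the form
`Pool.Agent.Y863.AA.msz`.
-/

set_option autoImplicit false

open Finset Filter Topology

namespace Pool.Agent.Results.MP_be93de_nt.ThirdOfMultiples

/-- The `m`-th prime: `p 1 = 2`, `p 2 = 3`, `p 3 = 5`, and so on. -/
noncomputable def p (m : ℕ) : ℕ := Nat.nth Nat.Prime (m - 1)

/-- The number of the integers `k ≥ 1` with `y ≤ p_{kn+s} ≤ x` for which `p_{kn+s} + h` is a prime of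
the form `p_{ln+s'}`, `l ≥ 1`. -/
noncomputable def count (n s s' h : ℕ) (y x : ℝ) : ℕ :=
  {k : ℕ | 1 ≤ k ∧ y ≤ p (k * n + s) ∧ (p (k * n + s) : ℝ) ≤ x ∧
    ∃ l : ℕ, 1 ≤ l ∧ p (k * n + s) + h = p (l * n + s')}.ncard

/-- `h` is a difference of primes with indices in any two given classes modulo `n`: for all `s`, `s'`
and all `η > 0` there are arbitrarily large `x` such that `p_{kn+s} + h` is a prime of the form
`p_{ln+s'}` for at least `x ^ (1 - η)` numbers `k` with `p_{kn+s} ≤ x`. -/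
def Good (n h : ℕ) : Prop := ∀ s < n, ∀ s' < n, ∀ η : ℝ, 0 < η →
  ∃ᶠ x : ℕ in atTop, (x : ℝ) ^ (1 - η) ≤ count n s s' h 1 x

open Pool.Agent.K7.H64.IX

theorem p_inj {a b : ℕ} (ha : 1 ≤ a) (hb : 1 ≤ b) (h : p a = p b) : a = b := by
  have := Nat.nth_injective Nat.infinite_setOfPred_prime h
  omega

theorem count_fin (n s s' h : ℕ) (hn : 1 ≤ n) (y x : ℝ) : {k : ℕ | 1 ≤ k ∧ y ≤ p (k * n + s) ∧
    (p (k * n + s) : ℝ) ≤ x ∧ ∃ l : ℕ, 1 ≤ l ∧ p (k * n + s) + h = p (l * n + s')}.Finite := by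
  refine (Set.finite_le_nat ⌊x⌋₊).subset fun k hk => ?_
  obtain ⟨h1, -, h2, -⟩ := hk
  have h3 : p (k * n + s) ≤ ⌊x⌋₊ := Nat.le_floor h2
  have h4 := Nat.add_two_le_nth_prime (k * n + s - 1)
  have h5 : k * 1 ≤ k * n := Nat.mul_le_mul_left k hn
  show k ≤ ⌊x⌋₊
  unfold p at h3
  omega

theorem cnt_le {n s s' h : ℕ} (hn : 1 ≤ n) (hs : s < n) (hs' : s' < n) {y x : ℝ}
    (hy : (Nat.nth Nat.Prime n : ℝ) ≤ y) : cnt n s s' h y x ≤ count n s s' h y x := by
  classical
  have key : ∀ P : ℕ, P.Prime → ∀ t < n, idx P % n = t → Nat.nth Nat.Prime n ≤ P →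
      1 ≤ idx P / n ∧ p (idx P / n * n + t) = P := by
    intro P hP t ht h1 h2
    have h3 : n < idx P := by
      have h4 : Nat.count Nat.Prime (Nat.nth Nat.Prime n) ≤ Nat.count Nat.Prime P := Nat.count_monotone _ h2
      rw [Nat.count_nth_of_infinite Nat.infinite_setOfPred_prime] at h4
      unfold idx
      omega
    refine ⟨(Nat.le_div_iff_mul_le (by omega)).2 (by omega), ?_⟩
    have h5 : idx P / n * n + t = idx P := by
      rw [← h1, Nat.mul_comm]
      exact Nat.div_add_mod _ _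
    rw [h5]
    exact nth_idx hP
  unfold cnt count
  refine Set.ncard_le_ncard_of_injOn (fun P => idx P / n) ?_ ?_ (count_fin n s s' h hn y x)
  · rintro P ⟨h1, h2, h3, h4, h5, h6⟩
    have hP : Nat.nth Nat.Prime n ≤ P := by
      have : (Nat.nth Nat.Prime n : ℝ) ≤ P := hy.trans h5
      exact_mod_cast this
    obtain ⟨k1, k2⟩ := key P h1 s hs (by rw [h3]; exact Nat.mod_eq_of_lt hs) hP
    obtain ⟨l1, l2⟩ := key (P + h) h2 s' hs' (by rw [h4]; exact Nat.mod_eq_of_lt hs') (by omega)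
    refine ⟨k1, ?_, ?_, idx (P + h) / n, l1, ?_⟩
    · rw [k2]; exact h5
    · rw [k2]; exact h6
    · rw [k2, l2]
  · rintro P ⟨h1, -, h3, -, h5, -⟩ P' ⟨h1', -, h3', -, h5', -⟩ heq
    have hP : Nat.nth Nat.Prime n ≤ P := by
      have : (Nat.nth Nat.Prime n : ℝ) ≤ P := hy.trans h5
      exact_mod_cast this
    have hP' : Nat.nth Nat.Prime n ≤ P' := by
      have : (Nat.nth Nat.Prime n : ℝ) ≤ P' := hy.trans h5'
      exact_mod_cast this
    obtain ⟨-, k2⟩ := key P h1 s hs (by rw [h3]; exact Nat.mod_eq_of_lt hs) hP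
    obtain ⟨-, k2'⟩ := key P' h1' s hs (by rw [h3']; exact Nat.mod_eq_of_lt hs) hP'
    have heq' : idx P / n = idx P' / n := heq
    rw [← k2, ← k2', heq']

theorem count_mono {n s s' h : ℕ} (hn : 1 ≤ n) {y y' x : ℝ} (hy : y' ≤ y) :
    count n s s' h y x ≤ count n s s' h y' x := by
  unfold count
  refine Set.ncard_le_ncard ?_ (count_fin n s s' h hn y' x)
  rintro k ⟨h1, h2, h3⟩
  exact ⟨h1, hy.trans h2, h3⟩

theorem not_good {n h : ℕ} (hg : ¬ Good n h) : ∃ s < n, ∃ s' < n, ∀ᶠ η in 𝓝[>] (0 : ℝ),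
    ∀ᶠ x : ℕ in atTop, (count n s s' h 1 x : ℝ) < (x : ℝ) ^ (1 - η) := by
  unfold Good at hg
  push Not at hg
  obtain ⟨s, hs, s', hs', η, hη, h1⟩ := hg
  refine ⟨s, hs, s', hs', ?_⟩
  filter_upwards [Ioc_mem_nhdsGT hη] with η' hη'
  filter_upwards [h1, eventually_ge_atTop 1] with x hx hx1
  have hx1' : (1 : ℝ) ≤ x := by exact_mod_cast hx1
  exact lt_of_lt_of_le hx (Real.rpow_le_rpow_of_exponent_le hx1' (by linarith [hη'.2]))

open Classical in
/-- **A third of the multiples of every even number.** For all `n, b ≥ 1` and `ε > 0` there is `C` such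
that:
(1) for `0 < η ≤ 1`, all large `x` and EVERY `H ≥ C` with `C H ≤ x`, at least `(1/3 - ε) H` of the
`m = 1, ..., H` are such that for all residues `s`, `s'` modulo `n` there are at least `x ^ (1 - η)`
numbers `k` with `x / C ≤ p_{kn+s} ≤ x` for which `p_{kn+s} + 2bm` is a prime of the form `p_{ln+s'}`;
(2) for every `H ≥ C` at least `(1/3 - ε) H` of the numbers `2bm`, `m = 1, ..., H`, are `Good` for `n`. -/
theorem result (n : ℕ) (hn : 1 ≤ n) (b : ℕ) (hb : 1 ≤ b) (ε : ℝ) (hε : 0 < ε) : ∃ C : ℕ, 1 ≤ C ∧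
    (∀ η : ℝ, 0 < η → η ≤ 1 → ∀ᶠ x : ℕ in atTop, ∀ H : ℕ, C ≤ H → C * H ≤ x →
      (1 / 3 - ε) * (H : ℝ) ≤ (((Icc 1 H).filter (fun m : ℕ => ∀ s < n, ∀ s' < n,
        (x : ℝ) ^ (1 - η) ≤ (count n s s' (2 * b * m) ((x : ℝ) / C) x : ℝ))).card : ℝ)) ∧
    ∀ H : ℕ, C ≤ H → (1 / 3 - ε) * (H : ℝ) ≤
      (((Icc 1 H).filter (fun m : ℕ => Good n (2 * b * m))).card : ℝ) := by
  obtain ⟨C, hC, hcore⟩ := third n hn b hb ε hε
  have hCr : (1 : ℝ) ≤ C := by exact_mod_cast hC
  have hpart : ∀ η : ℝ, 0 < η → η ≤ 1 → ∀ᶠ x : ℕ in atTop, ∀ H : ℕ, C ≤ H → C * H ≤ x →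
      (1 / 3 - ε) * (H : ℝ) ≤ (((Icc 1 H).filter (fun m : ℕ => ∀ s < n, ∀ s' < n,
        (x : ℝ) ^ (1 - η) ≤ (count n s s' (2 * b * m) ((x : ℝ) / C) x : ℝ))).card : ℝ) := by
    intro η hη hη1
    filter_upwards [hcore η hη hη1, eventually_ge_atTop (C * Nat.nth Nat.Prime n)] with x hx hx2
      H hH hCX
    refine le_trans (hx H hH hCX) ?_
    rw [Nat.cast_le]
    apply card_le_card
    intro m hm
    simp only [mem_filter] at hm ⊢
    refine ⟨hm.1, fun s hs s' hs' => ?_⟩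
    refine le_trans (hm.2 ⟨s, hs⟩ ⟨s', hs'⟩) ?_
    rw [Nat.cast_le]
    apply cnt_le hn hs hs'
    rw [le_div_iff₀ (by linarith)]
    have : ((C * Nat.nth Nat.Prime n : ℕ) : ℝ) ≤ x := by exact_mod_cast hx2
    push_cast at this
    linarith
  refine ⟨C, hC, hpart, fun H hH => ?_⟩
  have h1 : ∀ᶠ η in 𝓝[>] (0 : ℝ), ∀ m ∈ Icc 1 H, ¬ Good n (2 * b * m) →
      ∃ s < n, ∃ s' < n, ∀ᶠ x : ℕ in atTop, (count n s s' (2 * b * m) 1 x : ℝ) < (x : ℝ) ^ (1 - η) := by
    rw [Filter.eventually_all_finset]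
    intro m _
    by_cases hg : Good n (2 * b * m)
    · exact Eventually.of_forall fun η hn => absurd hg hn
    · obtain ⟨s, hs, s', hs', h2⟩ := not_good hg
      filter_upwards [h2] with η hη _
      exact ⟨s, hs, s', hs', hη⟩
  obtain ⟨η, h2, hη0, hη1⟩ := (h1.and (Ioc_mem_nhdsGT (zero_lt_one' ℝ))).exists
  have h3 : ∀ᶠ x : ℕ in atTop, ∀ m ∈ Icc 1 H, ¬ Good n (2 * b * m) →
      ∃ s < n, ∃ s' < n, (count n s s' (2 * b * m) 1 x : ℝ) < (x : ℝ) ^ (1 - η) := by
    rw [Filter.eventually_all_finset]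
    intro m hm
    by_cases hg : Good n (2 * b * m)
    · exact Eventually.of_forall fun x hn => absurd hg hn
    · obtain ⟨s, hs, s', hs', h4⟩ := h2 m hm hg
      filter_upwards [h4] with x hx _
      exact ⟨s, hs, s', hs', hx⟩
  obtain ⟨x, hx1, hx2, hx3⟩ :=
    (h3.and ((hpart η hη0 hη1).and (eventually_ge_atTop (C * H + C)))).exists
  refine le_trans (hx2 H hH (by omega)) ?_
  rw [Nat.cast_le]
  apply card_le_card
  intro m hm
  simp only [mem_filter] at hm ⊢
  refine ⟨hm.1, ?_⟩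
  by_contra hg
  obtain ⟨s, hs, s', hs', h4⟩ := hx1 m hm.1 hg
  have h5 := hm.2 s hs s' hs'
  have h6 : count n s s' (2 * b * m) ((x : ℝ) / C) x ≤ count n s s' (2 * b * m) 1 x := by
    apply count_mono hn
    rw [le_div_iff₀ (by linarith), one_mul]
    exact_mod_cast (by omega : C ≤ x)
  have h7 : (count n s s' (2 * b * m) ((x : ℝ) / C) x : ℝ) ≤ count n s s' (2 * b * m) 1 x := by
    exact_mod_cast h6
  linarith

end Pool.Agent.Results.MP_be93de_nt.ThirdOfMultiples
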